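import Pool.Agent.H75.FM.THL

/-!
# MP_52e316_nt, board `fmo_modules`, row THH: the theta function of a lattice in the half plane
-/

set_option autoImplicit false

open MeasureTheory Set Filter
open scoped Real Topology

namespace Pool.Agent.H75.FM

open Pool.Agent.H31.CN Pool.Agent.H89.FM

theorem norm_term (x y : ℝ) (n : ℕ) (hy : 0 < y) (c : ℝ) (v : ℤ × ℤ) (w : ℂ) (hw : c ≤ w.re) :
    ‖Complex.exp (-(2 * π * w * ((qz x y v / n : ℝ) : ℂ)))‖ ≤
      Real.exp (-(2 * π * c * (qz x y v / n))) := by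
  rw [Complex.norm_exp]
  refine Real.exp_le_exp.2 ?_
  have h1 : (-(2 * π * w * ((qz x y v / n : ℝ) : ℂ))).re = -(2 * π * w.re * (qz x y v / n)) := by
    have h2 : (-(2 * π * w * ((qz x y v / n : ℝ) : ℂ))) =
        ((-(2 * π * (qz x y v / n)) : ℝ) : ℂ) * w := by
      push_cast
      ring
    rw [h2, Complex.re_ofReal_mul]
    ring
  rw [h1, neg_le_neg_iff]
  have h3 : 0 ≤ qz x y v / n := div_nonneg (qz_nonneg x y hy v) (Nat.cast_nonneg _)
  exact mul_le_mul_of_nonneg_right (mul_le_mul_of_nonneg_left hw (by positivity)) h3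

theorem ThL_diff (hTHL : T_THL) (n : ℕ) (L : Pool.Agent.H89.FM.Lat) (x y : ℝ) (hn : 1 ≤ n)
    (hL : L ∈ Ls n) (hy : 0 < y) : DifferentiableOn ℂ (ThL n L x y) {w | 0 < w.re} := by
  classical
  intro w₀ hw₀
  rw [mem_ofPred_eq] at hw₀
  have hopen : IsOpen {w : ℂ | w₀.re / 2 < w.re} := isOpen_lt continuous_const Complex.continuous_re
  have hsum := (hTHL n L x y (w₀.re / 2) hn hL hy (by linarith)).1
  have hd : DifferentiableOn ℂ (fun w : ℂ => ∑' v : ℤ × ℤ, if v ∈ L then
      Complex.exp (-(2 * π * w * ((qz x y v / n : ℝ) : ℂ))) else 0) {w : ℂ | w₀.re / 2 < w.re} := by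
    refine Complex.differentiableOn_tsum_of_summable_norm hsum (fun v => ?_) hopen fun v w hw => ?_
    · split_ifs
      · exact (((differentiable_id.const_mul _).mul_const _).neg.cexp).differentiableOn
      · exact differentiableOn_const _
    · rw [mem_ofPred_eq] at hw
      split_ifs
      · exact norm_term x y n hy _ v w hw.le
      · rw [norm_zero]
        exact (Real.exp_pos _).le
  have hmem : w₀ ∈ {w : ℂ | w₀.re / 2 < w.re} := by
    rw [mem_ofPred_eq]
    linarith
  exact (hd.differentiableAt (hopen.mem_nhds hmem)).differentiableWithinAt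

theorem re_inv_pos (w : ℂ) (hw : 0 < w.re) : 0 < (w⁻¹).re := by
  rw [Complex.inv_re]
  refine div_pos hw (Complex.normSq_pos.2 ?_)
  rintro rfl
  simp at hw

theorem pf_THH (hTHL : T_THL) (_hFLS : T_FLS) : T_THH := by
  intro n L x y hn hL hy
  have hd := ThL_diff hTHL n L x y hn hL hy
  refine ⟨hd, ?_⟩
  have hopen : IsOpen {w : ℂ | 0 < w.re} := isOpen_lt continuous_const Complex.continuous_re
  have hne : ∀ w ∈ {w : ℂ | 0 < w.re}, w ≠ 0 := by
    rintro w hw rfl
    rw [mem_ofPred_eq] at hw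
    simp at hw
  have hf : DifferentiableOn ℂ (fun w => ThL n L x y w⁻¹) {w | 0 < w.re} := by
    refine hd.comp (differentiableOn_id.inv hne) ?_
    intro w hw
    exact re_inv_pos w hw
  have hg : DifferentiableOn ℂ (fun w => w * ThL n L x y w) {w | 0 < w.re} :=
    differentiableOn_id.mul hd
  have hconn : IsPreconnected {w : ℂ | 0 < w.re} := (convex_halfSpace_re_gt 0).isPreconnected
  have h1mem : (1 : ℂ) ∈ {w : ℂ | 0 < w.re} := by
    rw [mem_ofPred_eq]
    simp
  have hreal : ∀ᶠ u : ℝ in 𝓝[≠] (1 : ℝ), ThL n L x y ((u : ℝ) : ℂ)⁻¹ =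
      ((u : ℝ) : ℂ) * ThL n L x y ((u : ℝ) : ℂ) := by
    have h1 : ∀ᶠ u : ℝ in 𝓝 (1 : ℝ), 0 < u := eventually_gt_nhds one_pos
    filter_upwards [h1.filter_mono nhdsWithin_le_nhds] with u hu
    rw [← Complex.ofReal_inv]
    exact (hTHL n L x y u hn hL hy hu).2
  have htend : Tendsto (fun u : ℝ => (u : ℂ)) (𝓝[≠] (1 : ℝ)) (𝓝[≠] (1 : ℂ)) := by
    refine tendsto_nhdsWithin_iff.2 ⟨?_, ?_⟩
    · have h2 : Tendsto (fun u : ℝ => (u : ℂ)) (𝓝 (1 : ℝ)) (𝓝 ((1 : ℝ) : ℂ)) :=
        Complex.continuous_ofReal.tendsto 1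
      rw [Complex.ofReal_one] at h2
      exact h2.mono_left nhdsWithin_le_nhds
    · filter_upwards [self_mem_nhdsWithin] with u hu
      intro h3
      apply hu
      have h4 : (u : ℂ) = ((1 : ℝ) : ℂ) := by
        rw [Complex.ofReal_one]
        exact h3
      exact Complex.ofReal_injective h4
  have hfreq : ∃ᶠ w : ℂ in 𝓝[≠] (1 : ℂ), ThL n L x y w⁻¹ = w * ThL n L x y w :=
    htend.frequently hreal.frequently
  have heq := (hf.analyticOnNhd hopen).eqOn_of_preconnected_of_frequently_eq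
    (hg.analyticOnNhd hopen) hconn h1mem hfreq
  intro w hw
  exact heq hw

end Pool.Agent.H75.FM
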