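import Pool.Agent.H61.FM.Targets

/-!
# MP_52e316_nt, board `fmc_modules`, row PBD: the bound for the `L`-function by the partial sums
-/

set_option autoImplicit false

open MeasureTheory Set Filter NumberField
open scoped Real nonZeroDivisors Topology

namespace Pool.Agent.H75.FM

open Pool.Agent.H31.CN Pool.Agent.H89.FM Pool.Agent.H61.FM

theorem rpow_bd (x q e : ℝ) (hx : 1 ≤ x) (hq : 1 ≤ q) (he : -2 ≤ e) (he' : e ≤ 0) :
    (x / q) ^ e ≤ q ^ 2 := by
  have hq0 : 0 < q := by linarith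
  have h1 : (1 : ℝ) / q ≤ x / q := div_le_div_of_nonneg_right hx hq0.le
  calc (x / q) ^ e ≤ (1 / q) ^ e := Real.rpow_le_rpow_of_nonpos (by positivity) h1 he'
    _ = q ^ (-e) := by rw [one_div, Real.inv_rpow hq0.le, Real.rpow_neg hq0.le]
    _ ≤ q ^ (2 : ℝ) := Real.rpow_le_rpow_of_exponent_le hq (by linarith)
    _ = q ^ 2 := by norm_cast

theorem rpow_div_bd (x q e κ : ℝ) (hx : 1 ≤ x) (hq : 1 ≤ q) (h1 : e ≤ -(3 / 2) + κ)
    (h2 : -e - 1 ≤ 1 / 2 + κ) : (x / q) ^ e / q ≤ q ^ (1 / 2 + κ) * x ^ (-(3 / 2) + κ) := by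
  have hq0 : 0 < q := by linarith
  have hx0 : 0 < x := by linarith
  have h3 : (x / q) ^ e / q = q ^ (-e - 1) * x ^ e := by
    rw [Real.div_rpow hx0.le hq0.le, Real.rpow_sub hq0, Real.rpow_neg hq0.le, Real.rpow_one]
    field_simp
  rw [h3]
  exact mul_le_mul (Real.rpow_le_rpow_of_exponent_le hq h2)
    (Real.rpow_le_rpow_of_exponent_le hx h1) (Real.rpow_nonneg hx0.le _)
    (Real.rpow_nonneg hq0.le _)

theorem int_h (f : ℝ → ℂ) (hf : Measurable f) (C c₁ e : ℝ) (hC : 0 < C) (hc : 0 < c₁) (he : e ≤ 0)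
    (hb : ∀ x : ℝ, 1 ≤ x → ‖f x‖ ≤ C * x ^ 2) :
    IntegrableOn (fun x : ℝ => ‖f x‖ * x ^ e * Real.exp (-(c₁ * x))) (Ioi 1) := by
  have h1 : IntegrableOn (fun x : ℝ => x ^ (2 : ℝ) * Real.exp (-c₁ * x ^ (1 : ℝ))) (Ioi 0) :=
    integrableOn_rpow_mul_exp_neg_mul_rpow (by norm_num) (by norm_num) hc
  have h2 : IntegrableOn (fun x : ℝ => C * (x ^ (2 : ℝ) * Real.exp (-c₁ * x ^ (1 : ℝ)))) (Ioi 1) :=
    (h1.mono_set (Ioi_subset_Ioi zero_le_one)).const_mul C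
  refine Integrable.mono' h2 ?_ ?_
  · refine Measurable.aestronglyMeasurable ?_
    exact (hf.norm.mul (measurable_id.pow_const e)).mul
      (Real.measurable_exp.comp (measurable_id.const_mul c₁).neg)
  · refine (ae_restrict_iff' measurableSet_Ioi).2 (Eventually.of_forall fun x hx => ?_)
    rw [mem_Ioi] at hx
    have hx0 : 0 < x := by linarith
    rw [Real.norm_of_nonneg (by positivity), Real.rpow_one]
    have h3 : x ^ e ≤ 1 := Real.rpow_le_one_of_one_le_of_nonpos hx.le he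
    have h4 : x ^ (2 : ℝ) = x ^ 2 := by norm_cast
    have h5 : -(c₁ * x) = -c₁ * x := by ring
    rw [h4, h5]
    calc ‖f x‖ * x ^ e * Real.exp (-c₁ * x) ≤ (C * x ^ 2) * 1 * Real.exp (-c₁ * x) := by
          refine mul_le_mul_of_nonneg_right ?_ (Real.exp_pos _).le
          exact mul_le_mul (hb x hx.le) h3 (Real.rpow_nonneg hx0.le _) (by positivity)
      _ = C * (x ^ 2 * Real.exp (-c₁ * x)) := by ring

theorem pf_PBD (hLFK : T_LFK) (hKRB : T_KRB) (hABS : T_ABS) (hGML : T_GML) (hSPT : T_SPT) :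
    T_PBD := by
  obtain ⟨C₁, k₁, c, hC₁, hc, hK⟩ := hKRB
  obtain ⟨C₂, k₂, hC₂, hG⟩ := hGML
  obtain ⟨C₃, hC₃, hS⟩ := hSPT
  refine ⟨2 * C₁ * C₂, k₁ + k₂, c, by positivity, hc, ?_⟩
  intro K _ _ D hD ψ F hF s κ hs hκ
  obtain ⟨hSm, hSb⟩ := hS K D hD ψ
  have hκ0 : 0 ≤ κ := (abs_nonneg _).trans hs
  have hs8 : |s.re - 1 / 2| ≤ 1 / 8 := hs.trans hκ
  obtain ⟨hs1, hs2⟩ := abs_le.1 hs
  obtain ⟨hs3, hs4⟩ := abs_le.1 hs8
  set T : ℝ := 1 + |s.im| with hT
  have hT1 : 1 ≤ T := by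
    have := abs_nonneg s.im
    linarith
  have hT0 : 0 < T := by linarith
  have hD1 : (1 : ℝ) ≤ D := by exact_mod_cast hD.pos
  have hD0 : (0 : ℝ) < D := by linarith
  set q : ℝ := Real.sqrt D with hq
  have hq1 : 1 ≤ q := by
    rw [hq, Real.one_le_sqrt]
    exact hD1
  have hq0 : 0 < q := by linarith
  have hqT : 0 < q * T := by positivity
  set E₀ : ℝ := Real.exp (-(π * |s.im| / 2)) with hE₀
  have hE₀p : 0 < E₀ := Real.exp_pos _
  obtain ⟨τ, hτ1, hτ2, hcont, hder⟩ := hK s hs8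
  set c₁ : ℝ := c / (q * T) with hc₁
  have hc₁p : 0 < c₁ := by positivity
  have hI : IntegrableOn (fun x : ℝ => ‖Sp ψ x‖ * x ^ (-(3 / 2) + κ) *
      Real.exp (-(c * x / (q * T)))) (Ioi 1) := by
    have h := int_h (Sp ψ) hSm C₃ c₁ (-(3 / 2) + κ) hC₃ hc₁p (by linarith) hSb
    have h1 : ∀ x : ℝ, c₁ * x = c * x / (q * T) := by
      intro x
      rw [hc₁]
      ring
    simp only [h1] at h
    exact h
  refine ⟨hI, ?_⟩
  set I : ℝ := ∫ x in Ioi (1 : ℝ), ‖Sp ψ x‖ * x ^ (-(3 / 2) + κ) *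
      Real.exp (-(c * x / (q * T))) with hIdef
  have hLF := hLFK K D hD ψ F hF τ s hτ1 hτ2 (by linarith) (by
    rintro rfl
    simp at hs4
    linarith)
  set g : ℝ → ℂ := fun x => Kk τ s (x / q) with hg
  have hgd : ∀ x : ℝ, 0 < x → HasDerivAt g ((1 / q : ℝ) • deriv (Kk τ s) (x / q)) x := by
    intro x hx
    have h1 := ((hder (x / q) (by positivity)).1).hasDerivAt
    have h2 : HasDerivAt (fun x : ℝ => x / q) (1 / q) x := (hasDerivAt_id x).div_const q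
    exact HasDerivAt.scomp x h1 h2
  have hexp : ∀ x : ℝ, Real.exp (-(c * (x / q) / T)) = Real.exp (-(c₁ * x)) := by
    intro x
    congr 1
    rw [hc₁]
    field_simp
  have hM : ∀ x : ℝ, 1 ≤ x → DifferentiableAt ℝ g x ∧
      ‖g x‖ ≤ (C₁ * T ^ k₁ * E₀ * (q ^ 2 + q ^ 2)) * Real.exp (-(c₁ * x)) ∧
      ‖deriv g x‖ ≤ (C₁ * T ^ k₁ * E₀ * (q ^ 2 + q ^ 2)) * Real.exp (-(c₁ * x)) := by
    intro x hx
    have hx0 : 0 < x := by linarith
    obtain ⟨-, hb1, hb2⟩ := hder (x / q) (by positivity)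
    rw [hexp x] at hb1 hb2
    refine ⟨(hgd x hx0).differentiableAt, ?_, ?_⟩
    · refine hb1.trans (mul_le_mul_of_nonneg_right ?_ (Real.exp_pos _).le)
      refine mul_le_mul_of_nonneg_left (add_le_add ?_ ?_) (by positivity)
      · exact rpow_bd x q _ hx hq1 (by linarith) (by linarith)
      · exact rpow_bd x q _ hx hq1 (by linarith) (by linarith)
    · rw [(hgd x hx0).deriv, norm_smul, Real.norm_of_nonneg (by positivity)]
      have h1 : 1 / q * ‖deriv (Kk τ s) (x / q)‖ ≤ ‖deriv (Kk τ s) (x / q)‖ :=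
        mul_le_of_le_one_left (norm_nonneg _) ((div_le_one hq0).2 hq1)
      refine h1.trans (hb2.trans (mul_le_mul_of_nonneg_right ?_ (Real.exp_pos _).le))
      refine mul_le_mul_of_nonneg_left (add_le_add ?_ ?_) (by positivity)
      · exact rpow_bd x q _ hx hq1 (by linarith) (by linarith)
      · exact rpow_bd x q _ hx hq1 (by linarith) (by linarith)
  have hgcont : ContinuousOn (deriv g) (Ici 1) := by
    have h1 : ContinuousOn (fun x : ℝ => (1 / q : ℝ) • deriv (Kk τ s) (x / q)) (Ici 1) := by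
      have h9 : ContinuousOn (fun x : ℝ => deriv (Kk τ s) (x / q)) (Ici 1) := ?_
      · exact h9.const_smul (1 / q : ℝ)
      have h0 : ContinuousOn (fun x : ℝ => x / q) (Ici 1) :=
        (continuous_id.div_const q).continuousOn
      refine hcont.comp h0 ?_
      intro x hx
      rw [mem_Ici] at hx
      exact div_pos (by linarith) hq0
    refine h1.congr fun x hx => ?_
    rw [mem_Ici] at hx
    exact (hgd x (by linarith)).deriv
  obtain ⟨hint, hval⟩ := hABS K D hD ψ g _ c₁ _ hc₁p hgcont hM hLF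
  have hpt : ∀ x : ℝ, 1 < x → ‖Sp ψ x * deriv g x‖ ≤ (2 * C₁ * T ^ k₁ * E₀ * q ^ (1 / 2 + κ)) *
      (‖Sp ψ x‖ * x ^ (-(3 / 2) + κ) * Real.exp (-(c * x / (q * T)))) := by
    intro x hx
    have hx0 : 0 < x := by linarith
    obtain ⟨-, -, hb2⟩ := hder (x / q) (by positivity)
    rw [hexp x] at hb2
    have h6 : Real.exp (-(c₁ * x)) = Real.exp (-(c * x / (q * T))) := by
      congr 1
      rw [hc₁]
      ring
    rw [h6] at hb2
    rw [norm_mul, (hgd x hx0).deriv, norm_smul, Real.norm_of_nonneg (by positivity)]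
    have h1 := rpow_div_bd x q (-s.re - 1) κ hx.le hq1 (by linarith) (by linarith)
    have h2 := rpow_div_bd x q (s.re - 2) κ hx.le hq1 (by linarith) (by linarith)
    have h3 : 1 / q * ‖deriv (Kk τ s) (x / q)‖ ≤ C₁ * T ^ k₁ * E₀ *
        (2 * (q ^ (1 / 2 + κ) * x ^ (-(3 / 2) + κ))) * Real.exp (-(c * x / (q * T))) := by
      calc 1 / q * ‖deriv (Kk τ s) (x / q)‖ ≤ 1 / q * (C₁ * T ^ k₁ * E₀ *
            ((x / q) ^ (-s.re - 1) + (x / q) ^ (s.re - 2)) *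
            Real.exp (-(c * x / (q * T)))) := mul_le_mul_of_nonneg_left hb2 (by positivity)
        _ = C₁ * T ^ k₁ * E₀ * ((x / q) ^ (-s.re - 1) / q + (x / q) ^ (s.re - 2) / q) *
            Real.exp (-(c * x / (q * T))) := by ring
        _ ≤ _ := by
            refine mul_le_mul_of_nonneg_right ?_ (Real.exp_pos _).le
            refine mul_le_mul_of_nonneg_left ?_ (by positivity)
            linarith
    calc ‖Sp ψ x‖ * (1 / q * ‖deriv (Kk τ s) (x / q)‖) ≤ ‖Sp ψ x‖ * (C₁ * T ^ k₁ * E₀ *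
        (2 * (q ^ (1 / 2 + κ) * x ^ (-(3 / 2) + κ))) * Real.exp (-(c * x / (q * T)))) :=
          mul_le_mul_of_nonneg_left h3 (norm_nonneg _)
      _ = _ := by ring
  have hnorm : ‖gG s‖ * (D : ℝ) ^ (s.re / 2) * ‖F s‖ ≤
      2 * C₁ * T ^ k₁ * E₀ * q ^ (1 / 2 + κ) * I := by
    have h1 : ‖gG s * (D : ℂ) ^ (s / 2) * F s‖ = ‖gG s‖ * (D : ℝ) ^ (s.re / 2) * ‖F s‖ := by
      rw [norm_mul, norm_mul, Complex.norm_natCast_cpow_of_pos hD.pos]
      congr 3
      have h2 : s / 2 = ((1 / 2 : ℝ) : ℂ) * s := by push_cast; ring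
      rw [h2, Complex.re_ofReal_mul]
      ring
    rw [← h1, hval, norm_neg, hIdef, ← integral_const_mul]
    refine (norm_integral_le_integral_norm _).trans ?_
    refine setIntegral_mono_on hint.norm (hI.const_mul _) measurableSet_Ioi fun x hx => ?_
    exact hpt x hx
  have hI0 : 0 ≤ I := by
    refine setIntegral_nonneg measurableSet_Ioi fun x hx => ?_
    rw [mem_Ioi] at hx
    have : 0 < x := by linarith
    positivity
  have hGs := hG s hs8
  rw [← hT, ← hE₀] at hGs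
  have hGpos : 0 < ‖gG s‖ := by
    by_contra hcon
    push Not at hcon
    have h1 : C₂ * T ^ k₂ * ‖gG s‖ ≤ 0 :=
      mul_nonpos_of_nonneg_of_nonpos (by positivity) hcon
    linarith
  have hqD : q ^ (1 / 2 + κ) = (D : ℝ) ^ (1 / 4 - κ / 2) * (D : ℝ) ^ κ := by
    rw [hq, Real.sqrt_eq_rpow, ← Real.rpow_mul hD0.le, ← Real.rpow_add hD0]
    congr 1
    ring
  have hDl : (D : ℝ) ^ (1 / 4 - κ / 2) ≤ (D : ℝ) ^ (s.re / 2) :=
    Real.rpow_le_rpow_of_exponent_le hD1 (by linarith)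
  have hDp : 0 < (D : ℝ) ^ (1 / 4 - κ / 2) := Real.rpow_pos_of_pos hD0 _
  have hDκ : 0 < (D : ℝ) ^ κ := Real.rpow_pos_of_pos hD0 _
  have hmain : (‖gG s‖ * (D : ℝ) ^ (1 / 4 - κ / 2)) * ‖F s‖ ≤
      (‖gG s‖ * (D : ℝ) ^ (1 / 4 - κ / 2)) *
        (2 * C₁ * C₂ * T ^ (k₁ + k₂) * (D : ℝ) ^ κ * I) := by
    calc (‖gG s‖ * (D : ℝ) ^ (1 / 4 - κ / 2)) * ‖F s‖ ≤
          (‖gG s‖ * (D : ℝ) ^ (s.re / 2)) * ‖F s‖ := by
          refine mul_le_mul_of_nonneg_right ?_ (norm_nonneg _)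
          exact mul_le_mul_of_nonneg_left hDl hGpos.le
      _ ≤ 2 * C₁ * T ^ k₁ * E₀ * q ^ (1 / 2 + κ) * I := hnorm
      _ = (2 * C₁ * T ^ k₁ * q ^ (1 / 2 + κ) * I) * E₀ := by ring
      _ ≤ (2 * C₁ * T ^ k₁ * q ^ (1 / 2 + κ) * I) * (C₂ * T ^ k₂ * ‖gG s‖) := by
          refine mul_le_mul_of_nonneg_left hGs ?_
          positivity
      _ = _ := by
          rw [hqD, pow_add]
          ring
  exact le_of_mul_le_mul_left hmain (by positivity)

end Pool.Agent.H75.FM
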