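import Pool.Agent.H89.FM.Targets2
import Pool.Agent.H26.CN.THE

/-!
# MP_52e316_nt, board `fmo_modules`, rows THL and THH: the theta function of a lattice
-/

set_option autoImplicit false

open MeasureTheory Set Filter
open scoped Real Topology

namespace Pool.Agent.H75.FM

open Pool.Agent.H31.CN Pool.Agent.H89.FM

/-- the leading coefficient of the form in a basis -/
noncomputable def al (x y : ℝ) (n : ℕ) (e : ℤ × ℤ) : ℝ :=
  (((e.1 : ℝ) + e.2 * x) ^ 2 + ((e.2 : ℝ) * y) ^ 2) / (2 * y * n)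

/-- the middle coefficient of the form in a basis -/
noncomputable def be (x y : ℝ) (n : ℕ) (e e' : ℤ × ℤ) : ℝ :=
  (((e.1 : ℝ) + e.2 * x) * ((e'.1 : ℝ) + e'.2 * x) + ((e.2 : ℝ) * y) * ((e'.2 : ℝ) * y)) /
    (y * n)

theorem al_pos (x y : ℝ) (n : ℕ) (e e' : ℤ × ℤ) (hy : 0 < y) (hn : 1 ≤ n) (hd : det e e' = n) :
    0 < al x y n e := by
  have hn' : (0 : ℝ) < n := by exact_mod_cast hn
  unfold al
  refine div_pos ?_ (by positivity)
  by_contra hcon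
  push Not at hcon
  have h1 : ((e.1 : ℝ) + e.2 * x) ^ 2 = 0 := by
    nlinarith [sq_nonneg ((e.1 : ℝ) + e.2 * x), sq_nonneg ((e.2 : ℝ) * y)]
  have h2 : ((e.2 : ℝ) * y) ^ 2 = 0 := by
    nlinarith [sq_nonneg ((e.1 : ℝ) + e.2 * x), sq_nonneg ((e.2 : ℝ) * y)]
  have h3 : (e.2 : ℝ) = 0 := by
    rcases mul_eq_zero.1 (pow_eq_zero_iff (by norm_num)|>.1 h2) with h | h
    · exact h
    · exact absurd h hy.ne'
  have h4 : (e.1 : ℝ) = 0 := by
    have := (pow_eq_zero_iff (by norm_num)).1 h1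
    rwa [h3, zero_mul, add_zero] at this
  have h5 : e.1 = 0 := by exact_mod_cast h4
  have h6 : e.2 = 0 := by exact_mod_cast h3
  unfold det at hd
  rw [h5, h6] at hd
  simp only [zero_mul, sub_zero] at hd
  omega

theorem qz_basis (x y : ℝ) (n : ℕ) (e e' : ℤ × ℤ) (hy : 0 < y) (hn : 1 ≤ n)
    (hd : det e e' = n) (a b : ℤ) :
    qz x y (a • e + b • e') / n = qd (al x y n e) (be x y n e e') 1 (a, b) := by
  have hn' : (0 : ℝ) < n := by exact_mod_cast hn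
  have hα := al_pos x y n e e' hy hn hd
  have hd' : (e.1 : ℝ) * e'.2 - e.2 * e'.1 = n := by
    unfold det at hd
    exact_mod_cast hd
  have hkey : (be x y n e e') ^ 2 + 1 = 4 * al x y n e *
      ((((e'.1 : ℝ) + e'.2 * x) ^ 2 + ((e'.2 : ℝ) * y) ^ 2) / (2 * y * n)) := by
    have h1 : (1 : ℝ) = (((e.1 : ℝ) * e'.2 - e.2 * e'.1) * y) ^ 2 / (y * n) ^ 2 := by
      rw [hd']
      field_simp
    unfold be al
    calc _ = (((e.1 : ℝ) + e.2 * x) * ((e'.1 : ℝ) + e'.2 * x) +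
          ((e.2 : ℝ) * y) * ((e'.2 : ℝ) * y)) ^ 2 / (y * n) ^ 2 +
          (((e.1 : ℝ) * e'.2 - e.2 * e'.1) * y) ^ 2 / (y * n) ^ 2 := by
          rw [← h1, div_pow]
      _ = _ := by
          field_simp
          ring
  unfold qd
  have h2 : ((2 * al x y n e * (a : ℝ) + be x y n e e' * b) ^ 2 + 1 * (b : ℝ) ^ 2) /
      (4 * al x y n e) = al x y n e * a ^ 2 + be x y n e e' * a * b +
      ((be x y n e e') ^ 2 + 1) / (4 * al x y n e) * b ^ 2 := by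
    field_simp
    ring
  have h3 : ((be x y n e e') ^ 2 + 1) / (4 * al x y n e) =
      (((e'.1 : ℝ) + e'.2 * x) ^ 2 + ((e'.2 : ℝ) * y) ^ 2) / (2 * y * n) := by
    rw [hkey]
    field_simp
  simp only
  rw [h2, h3]
  unfold qz al be
  simp only [Prod.fst_add, Prod.snd_add, Prod.smul_fst, Prod.smul_snd, smul_eq_mul, Int.cast_add,
    Int.cast_mul]
  field_simp
  ring

theorem qz_nonneg (x y : ℝ) (hy : 0 < y) (v : ℤ × ℤ) : 0 ≤ qz x y v := by
  unfold qz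
  positivity

theorem summ_all (x y u : ℝ) (n : ℕ) (hn : 1 ≤ n) (hy : 0 < y) (hu : 0 < u) :
    Summable (fun v : ℤ × ℤ => Real.exp (-(2 * π * u * (qz x y v / n)))) := by
  have hn' : (0 : ℝ) < n := by exact_mod_cast hn
  have hd : det ((1, 0) : ℤ × ℤ) (0, 1) = ((1 : ℕ) : ℤ) := by
    simp [det]
  have h := (Pool.Agent.H26.CN.pf_THE (al x y 1 (1, 0)) (be x y 1 (1, 0) (0, 1)) 1 (u / n)
    (al_pos x y 1 _ _ hy (le_refl _) hd) one_pos (by positivity)).1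
  refine h.congr fun v => ?_
  have h1 := qz_basis x y 1 (1, 0) (0, 1) hy (le_refl _) hd v.1 v.2
  have h2 : v.1 • ((1, 0) : ℤ × ℤ) + v.2 • ((0, 1) : ℤ × ℤ) = v := by
    ext <;> simp
  rw [h2, Nat.cast_one, div_one] at h1
  rw [Real.sqrt_one, div_one, h1]
  congr 1
  field_simp

theorem ThL_real (n : ℕ) (L : Pool.Agent.H89.FM.Lat) (x y : ℝ) (hn : 1 ≤ n) (hy : 0 < y) (e₁ e₂ : ℤ × ℤ)
    (hd : det e₁ e₂ = n) (hL : ∀ v : ℤ × ℤ, v ∈ L ↔ ∃ a b : ℤ, v = a • e₁ + b • e₂) (u : ℝ) :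
    ThL n L x y ((u : ℝ) : ℂ) = ((Th (al x y n e₁) (be x y n e₁ e₂) 1 u : ℝ) : ℂ) := by
  classical
  have hinj : Function.Injective fun p : ℤ × ℤ => p.1 • e₁ + p.2 • e₂ := by
    intro p q hpq
    have h1 : p.1 * e₁.1 + p.2 * e₂.1 = q.1 * e₁.1 + q.2 * e₂.1 := congrArg Prod.fst hpq
    have h2 : p.1 * e₁.2 + p.2 * e₂.2 = q.1 * e₁.2 + q.2 * e₂.2 := congrArg Prod.snd hpq
    have hn0 : det e₁ e₂ ≠ 0 := by rw [hd]; omega
    have h3 : (p.1 - q.1) * det e₁ e₂ = 0 := by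
      unfold det
      linear_combination e₂.2 * h1 - e₂.1 * h2
    have h4 : (p.2 - q.2) * det e₁ e₂ = 0 := by
      unfold det
      linear_combination e₁.1 * h2 - e₁.2 * h1
    have h5 : p.1 - q.1 = 0 := (mul_eq_zero.1 h3).resolve_right hn0
    have h6 : p.2 - q.2 = 0 := (mul_eq_zero.1 h4).resolve_right hn0
    exact Prod.ext (by omega) (by omega)
  unfold ThL Th
  rw [← hinj.tsum_eq, Complex.ofReal_tsum]
  · refine tsum_congr fun p => ?_
    rw [if_pos ((hL _).2 ⟨p.1, p.2, rfl⟩), qz_basis x y n e₁ e₂ hy hn hd p.1 p.2, Real.sqrt_one,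
      div_one]
    push_cast
    rfl
  · intro v hv
    rw [Function.mem_support] at hv
    by_contra hcon
    apply hv
    rw [if_neg]
    intro hvL
    obtain ⟨a, b, hab⟩ := (hL v).1 hvL
    exact hcon ⟨(a, b), hab.symm⟩

theorem pf_THL (_hFLS : T_FLS) (hBSL : T_BSL) : T_THL := by
  intro n L x y u hn hL hy hu
  refine ⟨summ_all x y u n hn hy hu, ?_⟩
  obtain ⟨e₁, e₂, hd, hLe⟩ := hBSL n L hn hL
  rw [ThL_real n L x y hn hy e₁ e₂ hd hLe u⁻¹, ThL_real n L x y hn hy e₁ e₂ hd hLe u,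
    (Pool.Agent.H26.CN.pf_THE _ _ 1 u (al_pos x y n e₁ e₂ hy hn hd) one_pos hu).2]
  push_cast
  rfl

end Pool.Agent.H75.FM
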